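import Pool.Agent.Lib.THU28.Cusp

/-!
Normalised cusp vectors: invariance and estimates for the lambda lengths.
-/

namespace Pool.Agent.Lib.THU28

open Matrix

variable {F : Type} [Group F] {P : Type} [MulAction F P]

/-- normalised cusp vectors -/
structure Nrm (c : P → F) (V : P → V2) : Prop where
  inj : ∀ a b, a ≠ b → om (V a) (V b) ≠ 0
  par : ∀ a, Rp V (tv (V a) 1) (c a)
  mob : ∀ g : F, ∃ A, Rp V A g ∨ Rq V A g
  disc : Disc F V
  c_ne : ∀ a, c a ≠ 1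
  stab : ∀ a (g : F), g • a = a ↔ g ∈ Subgroup.zpowers (c a)
  fix1 : ∀ x : F, x ≠ 1 → ∀ a b : P, x • a = a → x • b = b → a = b
  two : ∃ a b : P, a ≠ b

lemma exists_ne_of_two (h : ∃ a b : P, a ≠ b) (a : P) : ∃ b, a ≠ b := by
  obtain ⟨x, y, hxy⟩ := h
  by_cases e : a = x
  · exact ⟨y, e ▸ hxy⟩
  · exact ⟨x, e⟩

lemma ne_zero_of_inj {V : P → V2} (inj : ∀ a b, a ≠ b → om (V a) (V b) ≠ 0)
    (h : ∃ a b : P, a ≠ b) (a : P) : V a ≠ 0 := by
  obtain ⟨b, hb⟩ := exists_ne_of_two h a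
  intro e
  exact inj a b hb (by simp [e, om])

lemma tv_adjugate (u : V2) (k : ℂ) : (tv u k).adjugate = tv u (-k) := by
  ext i j; fin_cases i <;> fin_cases j <;> simp [tv, adjugate_fin_two]; ring

variable {c : P → F} {V : P → V2}

lemma Nrm.ne (h : Nrm c V) (a : P) : V a ≠ 0 := ne_zero_of_inj h.inj h.two a

lemma Nrm.fix (h : Nrm c V) (a : P) : c a • a = a := (h.stab a _).2 (Subgroup.mem_zpowers _)

lemma Nrm.zpow (h : Nrm c V) (a : P) (k : ℤ) : Rp V (tv (V a) k) (c a ^ k) := by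
  induction k using Int.induction_on with
  | zero => simpa [tv_zero] using Rp.one V
  | succ i ih =>
    have := ih.mul (h.par a)
    rw [tv_mul, ← _root_.zpow_add_one] at this
    simpa using this
  | pred i ih =>
    have := ih.mul ((h.par a).inv h.ne)
    rw [tv_adjugate, tv_mul, ← _root_.zpow_sub_one] at this
    simpa [sub_eq_add_neg] using this

lemma Nrm.not_comm (h : Nrm c V) {a b : P} (hab : a ≠ b) : ¬ Commute (c a) (c b) := fun e => by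
  have h1 : c b • (c a • b) = c a • b := by rw [← mul_smul, ← e.eq, mul_smul, h.fix]
  exact hab (h.fix1 _ (h.c_ne a) _ _ (h.fix a) (h.fix1 _ (h.c_ne b) _ _ h1 (h.fix b)))

lemma Nrm.sq (h : Nrm c V) (g : F) : ∃ A, Rp V A (g ^ 2) := by
  rw [pow_two]
  obtain ⟨A, hA | hA⟩ := h.mob g
  exacts [⟨_, hA.mul hA⟩, ⟨_, hA.mul hA⟩]

variable [IsFreeGroup F]

lemma Nrm.conj (h : Nrm c V) (g : F) (a : P) :
    ∃ m : ℤ, (m = 1 ∨ m = -1) ∧ g * c a * g⁻¹ = c (g • a) ^ m := by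
  obtain ⟨m, hm⟩ := (h.stab (g • a) (g * c a * g⁻¹)).1 (by
    rw [mul_smul, mul_smul, inv_smul_smul, h.fix])
  obtain ⟨n, hn⟩ := (h.stab a (g⁻¹ * c (g • a) * g)).1 (by
    rw [mul_smul, mul_smul, h.fix, inv_smul_smul])
  simp only at hm hn
  refine ⟨m, Int.eq_one_or_neg_one_of_mul_eq_one (v := n) ?_, hm.symm⟩
  have e : c a ^ (m * n - 1) = 1 := by
    rw [_root_.zpow_sub_one, mul_comm, _root_.zpow_mul, hn]
    have : g⁻¹ * c (g • a) * g = g⁻¹ * c (g • a) * g⁻¹⁻¹ := by rw [inv_inv]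
    rw [this, _root_.conj_zpow, hm]; group
  have := tf (A := F)
  exact sub_eq_zero.1 ((IsMulTorsionFree.zpow_eq_one_iff_right (h.c_ne a)).1 e)

/-- a semilinear map inducing `g` multiplies the normalised vectors by units -/
lemma Nrm.unit (h : Nrm c V) {g : F} {J : V2 → V2} {σ : ℂ → ℂ} (hσ : ∀ z, ‖σ z‖ = ‖z‖)
    (h1 : ∀ x y, J (x + y) = J x + J y) (h2 : ∀ (k : ℂ) x, J (k • x) = σ k • J x)
    (h3 : ∀ x y, om (J x) (J y) = σ (om x y)) (hJ : ∀ a, ∃ s : ℂ, J (V a) = s • V (g • a))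
    (a : P) : ∃ s : ℂ, ‖s‖ = 1 ∧ J (V a) = s • V (g • a) := by
  obtain ⟨s, hs⟩ := hJ a
  refine ⟨s, ?_, hs⟩
  obtain ⟨b, hb⟩ := exists_ne_of_two h.two a
  obtain ⟨t, ht⟩ := hJ b
  obtain ⟨m, hm, e⟩ := h.conj g a
  obtain ⟨u, hu⟩ := (h.par a).2 b
  obtain ⟨u', hu'⟩ := (h.zpow (g • a) m).2 (g • b)
  obtain ⟨r, hr⟩ := hJ (c a • b)
  rw [← e, mul_smul, mul_smul, inv_smul_smul, tv_mulVec] at hu'
  have e1 := congrArg J hu
  rw [tv_mulVec, h1, h2, h2, hs, ht, hr, one_mul] at e1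
  have e2 := congrArg₂ om e1 hu'
  have e3 := h3 (V a) (V b)
  rw [hs, ht] at e3
  simp only [om_add_left, om_add_right, om_smul_left, om_smul_right, om_self, ← e3,
    om_swap (V (g • a)) (V (g • b))] at e2
  have o0 : σ (om (V a) (V b)) ≠ 0 := by
    rw [← norm_ne_zero_iff, hσ, norm_ne_zero_iff]; exact h.inj a b hb
  rw [← e3, om_smul_left, om_smul_right] at o0
  have t0 : t ≠ 0 := fun e => o0 (by simp [e])
  have o1 : om (V (g • a)) (V (g • b)) ≠ 0 := fun e => o0 (by simp [e])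
  have e4 : s ^ 2 = m := by
    apply mul_left_cancel₀ (mul_ne_zero t0 (pow_ne_zero 2 o1))
    linear_combination e2
  have e5 : ‖s‖ ^ 2 = 1 := by
    rw [← norm_pow, e4]; rcases hm with rfl | rfl <;> simp
  exact (pow_eq_one_iff_of_nonneg (norm_nonneg _) two_ne_zero).1 e5

lemma Nrm.unit_p (h : Nrm c V) {A : M2} {g : F} (hA : Rp V A g) (a : P) :
    ∃ s : ℂ, ‖s‖ = 1 ∧ A *ᵥ V a = s • V (g • a) :=
  h.unit (J := fun x => A *ᵥ x) (σ := id) (fun _ => rfl) (mulVec_add A)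
    (fun k x => mulVec_smul A k x) (fun x y => by rw [om_mulVec, hA.1, one_mul]; rfl) hA.2 a

lemma Nrm.unit_q (h : Nrm c V) {A : M2} {g : F} (hA : Rq V A g) (a : P) :
    ∃ s : ℂ, ‖s‖ = 1 ∧ A *ᵥ star (V a) = s • V (g • a) :=
  h.unit (J := fun x => A *ᵥ star x) (σ := star) norm_star
    (fun x y => by rw [star_add, mulVec_add])
    (fun k x => by rw [star_smul, mulVec_smul])
    (fun x y => by rw [om_mulVec, hA.1, one_mul, om_star]) hA.2 a

theorem Nrm.inv (h : Nrm c V) (g : F) (a b : P) :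
    ‖om (V (g • a)) (V (g • b))‖ = ‖om (V a) (V b)‖ := by
  obtain ⟨A, hA | hA⟩ := h.mob g
  · obtain ⟨s, hs, e1⟩ := h.unit_p hA a
    obtain ⟨t, ht, e2⟩ := h.unit_p hA b
    have := om_mulVec A (V a) (V b)
    rw [e1, e2, hA.1, one_mul, om_smul_left, om_smul_right] at this
    rw [← this, norm_mul, norm_mul, hs, ht, one_mul, one_mul]
  · obtain ⟨s, hs, e1⟩ := h.unit_q hA a
    obtain ⟨t, ht, e2⟩ := h.unit_q hA b
    have := om_mulVec A (star (V a)) (star (V b))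
    rw [e1, e2, hA.1, one_mul, om_smul_left, om_smul_right, om_star] at this
    rw [← norm_star (om (V a) (V b)), ← this, norm_mul, norm_mul, hs, ht, one_mul, one_mul]

theorem Nrm.par_norm (h : Nrm c V) (a b : P) (k : ℤ) :
    ‖om (V b) (V (c a ^ k • b))‖ = |(k : ℝ)| * ‖om (V a) (V b)‖ ^ 2 := by
  obtain ⟨s, hs, e⟩ := h.unit_p (h.zpow a k) b
  have := congrArg (fun x => ‖om (V b) x‖) e
  simp only [tv_mulVec, om_add_right, om_smul_right, om_self, zero_add, norm_mul, hs, one_mul,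
    norm_om_swap (V a) (V b), Complex.norm_intCast] at this
  rw [← this]; ring

theorem Nrm.low (h : Nrm c V) {a b : P} (hab : a ≠ b) : 1 / 72 ≤ ‖om (V a) (V b)‖ ^ 2 := by
  by_contra hl
  have o0 := h.inj a b hab
  set o := om (V a) (V b) with ho
  have ho' : om (V b) (V a) = -o := om_swap _ _
  refine h.not_comm hab (zas_frame h.ne h.disc (e := (3 : ℂ) • V a) (f := (3 * o)⁻¹ • V b) ?_
    (h.par a) (h.par b) ?_ ?_ ?_ ?_) <;>
    simp only [tv_mulVec, om_add_left, om_add_right, om_smul_left, om_smul_right, om_self, ← ho,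
      ho'] <;> field_simp
  · have := norm_ne_zero_iff.2 o0
    norm_num; field_simp; norm_num
  · norm_num
  · norm_num
  · simp; linarith

theorem Nrm.small (h : Nrm c V) {A B : M2} {g g' : F} (hA : Rp V A g) (hB : Rp V B g')
    (hc : ¬ Commute g g') {a b : P} (hab : a ≠ b) {K x y : ℝ} (hK : 1 ≤ K) (hx : 0 < x)
    (a1 : ‖om (V (g • a)) (V b)‖ ≤ K * ‖om (V a) (V b)‖)
    (a2 : ‖om (V a) (V (g • b))‖ ≤ K * ‖om (V a) (V b)‖)
    (b1 : ‖om (V (g' • a)) (V b)‖ ≤ K * ‖om (V a) (V b)‖)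
    (b2 : ‖om (V a) (V (g' • b))‖ ≤ K * ‖om (V a) (V b)‖)
    (a3 : ‖om (V a) (V (g • a))‖ ≤ x) (b3 : ‖om (V a) (V (g' • a))‖ ≤ x)
    (a4 : ‖om (V (g • b)) (V b)‖ ≤ y) (b4 : ‖om (V (g' • b)) (V b)‖ ≤ y) :
    ‖om (V a) (V b)‖ ^ 2 ≤ (1024 * K ^ 5) ^ 2 * (x * y) := by
  by_contra hl
  have o0 := h.inj a b hab
  have o1 := norm_pos_iff.2 o0
  set η := (1024 * K ^ 5)⁻¹ with hη
  have η0 : 0 < η := by positivity
  set r := √(η / x)
  have r0 : 0 < r := Real.sqrt_pos.2 (by positivity)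
  have r2 : r ^ 2 * x = η := by rw [Real.sq_sqrt (by positivity)]; field_simp
  have rc : (r : ℂ) ≠ 0 := by exact_mod_cast r0.ne'
  have hy : y ≤ η * (r * ‖om (V a) (V b)‖) ^ 2 := by
    have : x * y ≤ η ^ 2 * ‖om (V a) (V b)‖ ^ 2 := by
      rw [hη, inv_pow, ← div_eq_inv_mul, le_div_iff₀ (by positivity)]; linarith
    apply le_of_mul_le_mul_left _ hx
    calc _ ≤ _ := this
      _ = η * (r ^ 2 * x) * ‖om (V a) (V b)‖ ^ 2 := by rw [r2]; ring
      _ = _ := by ring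
  have key : ∀ (C : M2) (u : F), Rp V C u → ‖om (V (u • a)) (V b)‖ ≤ K * ‖om (V a) (V b)‖ →
      ‖om (V a) (V (u • b))‖ ≤ K * ‖om (V a) (V b)‖ → ‖om (V a) (V (u • a))‖ ≤ x →
      ‖om (V (u • b)) (V b)‖ ≤ y →
      ‖om (C *ᵥ (r : ℂ) • V a) ((r * om (V a) (V b))⁻¹ • V b)‖ ≤ K ∧
      ‖om ((r : ℂ) • V a) (C *ᵥ (r * om (V a) (V b))⁻¹ • V b)‖ ≤ K ∧
      ‖om (C *ᵥ (r * om (V a) (V b))⁻¹ • V b) ((r * om (V a) (V b))⁻¹ • V b)‖ ≤ η ∧
      ‖om ((r : ℂ) • V a) (C *ᵥ (r : ℂ) • V a)‖ ≤ η := by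
    intro C u hC c1 c2 c3 c4
    obtain ⟨s, hs, e1⟩ := h.unit_p hC a
    obtain ⟨t, ht, e2⟩ := h.unit_p hC b
    simp only [mulVec_smul, e1, e2, om_smul_left, om_smul_right, norm_mul, norm_inv, hs, ht,
      one_mul, Complex.norm_real, Real.norm_eq_abs, abs_of_pos r0]
    refine ⟨?_, ?_, ?_, ?_⟩
    · field_simp; linarith
    · field_simp; linarith
    · field_simp; linarith
    · rw [← r2]; nlinarith [mul_pos r0 r0]
  obtain ⟨p1, p2, p3, p4⟩ := key A g hA a1 a2 a3 a4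
  obtain ⟨q1, q2, q3, q4⟩ := key B g' hB b1 b2 b3 b4
  refine hc (small_frame h.ne h.disc ?_ hA hB hK p1 p2 q1 q2 p3 p4 q3 q4 ?_)
  · rw [om_smul_left, om_smul_right]; field_simp
  · rw [hη]; field_simp; exact le_rfl

end Pool.Agent.Lib.THU28
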