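import Mathlib

/-!
Free groups are commutative transitive and their maximal abelian subgroups are malnormal.
-/

namespace Pool.Agent.Lib.THU28

open Subgroup

variable {A : Type} [Group A] [IsFreeGroup A]

lemma tf : IsMulTorsionFree A :=
  Function.Injective.isMulTorsionFree (IsFreeGroup.toFreeGroup A).toMonoidHom
    (IsFreeGroup.toFreeGroup A).injective

lemma closure_of : closure (Set.range (IsFreeGroup.of (G := A))) = ⊤ := by
  have := congrArg (map (IsFreeGroup.mulEquiv A).toMonoidHom) (FreeGroup.closure_range_of _)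
  rw [MonoidHom.map_closure, ← Set.range_comp, map_top_of_surjective _
    (IsFreeGroup.mulEquiv A).surjective] at this
  exact this

lemma dichotomy : (∃ r : A, ∀ x, x ∈ zpowers r) ∨ ((∃ x y : A, x * y ≠ y * x) ∧
    ∃ χ χ' : A →* Multiplicative ℤ, ∀ a b : ℤ,
      (∀ x, a * (χ x).toAdd + b * (χ' x).toAdd = 0) → a = 0 ∧ b = 0) := by
  classical
  rcases subsingleton_or_nontrivial (IsFreeGroup.Generators A) with e | ⟨⟨i, j, hij⟩⟩
  · left
    have h : ∀ r : A, (∀ i, IsFreeGroup.of i ∈ zpowers r) → ∀ x, x ∈ zpowers r := fun r h x =>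
      (closure_le _).2 (Set.range_subset_iff.2 h) (closure_of (A := A) ▸ mem_top x)
    rcases isEmpty_or_nonempty (IsFreeGroup.Generators A) with e | ⟨⟨i⟩⟩
    · exact ⟨1, h 1 fun i => isEmptyElim i⟩
    · exact ⟨_, h (IsFreeGroup.of i) fun j => Subsingleton.elim i j ▸ mem_zpowers _⟩
  · right
    refine ⟨⟨IsFreeGroup.of i, IsFreeGroup.of j, fun e => ?_⟩,
      IsFreeGroup.lift fun a => if a = i then .ofAdd 1 else 1,
      IsFreeGroup.lift fun a => if a = j then .ofAdd 1 else 1, fun a b h => ?_⟩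
    · have := congrArg (IsFreeGroup.lift fun a =>
        if a = i then Equiv.swap (0 : Fin 3) 1 else Equiv.swap 1 2) e
      simp only [map_mul, IsFreeGroup.lift_of, if_true, if_neg hij.symm] at this
      exact absurd this (by decide)
    · have h1 := h (IsFreeGroup.of i)
      have h2 := h (IsFreeGroup.of j)
      simp [hij, hij.symm] at h1 h2
      exact ⟨h1, h2⟩

lemma comm_cyc {x y : A} (h : Commute x y) : ∃ r : A, x ∈ zpowers r ∧ y ∈ zpowers r := by
  rcases dichotomy (A := closure ({x, y} : Set A)) with ⟨r, hr⟩ | ⟨⟨a, b, hab⟩, -⟩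
  · obtain ⟨m, hm⟩ := hr ⟨x, subset_closure (by simp)⟩
    obtain ⟨n, hn⟩ := hr ⟨y, subset_closure (by simp)⟩
    exact ⟨r, ⟨m, congrArg Subtype.val hm⟩, n, congrArg Subtype.val hn⟩
  · have := isMulCommutative_closure (k := ({x, y} : Set A)) (by
      rintro _ (rfl | rfl) _ (rfl | rfl) <;> simp [h.eq])
    exact (hab (this.is_comm.comm a b)).elim

lemma commute_of_zpow {r c : A} {m : ℤ} (hm : m ≠ 0) (h : Commute (r ^ m) c) : Commute r c := by
  have := tf (A := A)
  have : (c * r * c⁻¹) ^ m = r ^ m := by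
    rw [conj_zpow, ← h.eq, mul_inv_cancel_right]
  have := zpow_left_injective hm this
  have e : c * r = r * c := by simpa [mul_inv_eq_iff_eq_mul] using this
  exact e.symm

/-- commutative transitivity -/
theorem ct {a b c : A} (ha : a ≠ 1) (hb : Commute a b) (hc : Commute a c) : Commute b c := by
  obtain ⟨r, ⟨m, rfl⟩, n, rfl⟩ := comm_cyc hb
  have hm : m ≠ 0 := fun e => ha (by simp [e])
  exact (commute_of_zpow hm hc).zpow_left n

lemma indep {U : Subgroup A} (x y : U) (hU : U = closure {(x : A), (y : A)})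
    (h : (x : A) * y ≠ y * x) (a b : ℤ)
    (H : ∀ χ : U →* Multiplicative ℤ, a * (χ x).toAdd + b * (χ y).toAdd = 0) :
    a = 0 ∧ b = 0 := by
  rcases dichotomy (A := U) with ⟨r, hr⟩ | ⟨-, χ, χ', h2⟩
  · obtain ⟨m, rfl⟩ := hr x
    obtain ⟨n, rfl⟩ := hr y
    exact (h (congrArg Subtype.val (zpow_mul_comm r m n))).elim
  have key : ∀ p q : ℤ, p * (χ x).toAdd + q * (χ' x).toAdd = 0 →
      p * (χ y).toAdd + q * (χ' y).toAdd = 0 → p = 0 ∧ q = 0 :=
    fun p q h3 h4 => h2 p q fun ⟨z, hz⟩ => by
    have hz' : z ∈ closure {(x : A), (y : A)} := hU ▸ hz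
    induction hz' using closure_induction with
    | mem s hs => rcases hs with rfl | rfl <;> assumption
    | one =>
      exact (by rw [χ.map_one, χ'.map_one]; simp : p * (χ 1).toAdd + q * (χ' 1).toAdd = 0)
    | mul s s' h5 h6 i1 i2 =>
      have h7 : s ∈ U := hU ▸ h5
      have h8 : s' ∈ U := hU ▸ h6
      have : p * (χ (⟨s, h7⟩ * ⟨s', h8⟩)).toAdd + q * (χ' (⟨s, h7⟩ * ⟨s', h8⟩)).toAdd = 0 := by
        rw [χ.map_mul, χ'.map_mul, toAdd_mul, toAdd_mul]; linear_combination i1 h7 + i2 h8
      exact this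
    | inv s h5 i1 =>
      have h7 : s ∈ U := hU ▸ h5
      have : p * (χ (⟨s, h7⟩)⁻¹).toAdd + q * (χ' (⟨s, h7⟩)⁻¹).toAdd = 0 := by
        rw [χ.map_inv, χ'.map_inv, toAdd_inv, toAdd_inv]; linear_combination -i1 h7
      exact this
  have e1 := H χ
  have e2 := H χ'
  by_cases D : (χ x).toAdd * (χ' y).toAdd - (χ y).toAdd * (χ' x).toAdd = 0
  · obtain ⟨k1, k2⟩ := key ((χ' x).toAdd) (-(χ x).toAdd) (by ring) (by linear_combination -D)
    obtain ⟨k3, k4⟩ := key ((χ' y).toAdd) (-(χ y).toAdd) (by linear_combination D) (by ring)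
    exact absurd (key 0 1 (by rw [k1]; ring) (by rw [k3]; ring)).2 one_ne_zero
  · exact ⟨(mul_eq_zero.1 (by
        linear_combination (χ' y).toAdd * e1 - (χ y).toAdd * e2)).resolve_right D,
      (mul_eq_zero.1 (by
        linear_combination (χ x).toAdd * e2 - (χ' x).toAdd * e1)).resolve_right D⟩

/-- malnormality: an element that commutes with a conjugate commutes with the conjugator -/
theorem maln {u a : A} (e : Commute u (a * u * a⁻¹)) : Commute u a := by
  by_contra h
  obtain ⟨r, ⟨p, hp⟩, q, hq⟩ := comm_cyc e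
  simp only at hp hq
  have hp0 : p ≠ 0 := fun e0 => h (by rw [← hp, e0, zpow_zero]; exact Commute.one_left a)
  have hra : r * a ≠ a * r := fun e1 => h (hp ▸ (Commute.zpow_left e1 p))
  let U := closure ({r, a} : Set A)
  let x : U := ⟨r, subset_closure (by simp)⟩
  let y : U := ⟨a, subset_closure (by simp)⟩
  have e2 : y * x ^ p * y⁻¹ = x ^ q := Subtype.ext (by
    simp only [Subgroup.coe_mul, Subgroup.coe_inv, SubgroupClass.coe_zpow, x, y]
    rw [hp, hq])
  have := (indep x y rfl hra (p - q) 0 fun χ => by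
    have := congrArg (fun z => (χ z).toAdd) e2
    simp only [map_mul, map_inv, map_zpow, toAdd_mul, toAdd_inv, toAdd_zpow, smul_eq_mul] at this
    linear_combination this).1
  have hpq : p = q := by omega
  apply h
  have : a * u * a⁻¹ = u := by rw [← hq, ← hpq, hp]
  have e3 : a * u = u * a := by simpa [mul_inv_eq_iff_eq_mul] using this
  exact e3.symm

/-- for two non-commuting `a b`, every nontrivial element fails to commute with one of its
conjugates by `a`, `b` -/
theorem not_comm_conj {a b : A} (hab : ¬ Commute a b) {u : A} (hu : u ≠ 1) :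
    ¬ Commute u (a * u * a⁻¹) ∨ ¬ Commute u (b * u * b⁻¹) := by
  by_contra h
  push Not at h
  exact hab (ct hu (maln h.1) (maln h.2))

end Pool.Agent.Lib.THU28
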