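import Pool.Agent.Lib.THU28.Zas2

/-!
Cusp vectors of a discrete representation: lambda lengths.
-/

namespace Pool.Agent.Lib.THU28

open Matrix

abbrev V2 := Fin 2 → ℂ
abbrev M2 := Matrix (Fin 2) (Fin 2) ℂ

def om (x y : V2) : ℂ := x 0 * y 1 - x 1 * y 0

lemma om_self (x : V2) : om x x = 0 := by simp [om, mul_comm]
lemma om_swap (x y : V2) : om y x = - om x y := by simp [om]; ring
lemma om_smul_left (s : ℂ) (x y : V2) : om (s • x) y = s * om x y := by simp [om]; ring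
lemma om_smul_right (s : ℂ) (x y : V2) : om x (s • y) = s * om x y := by simp [om]; ring
lemma om_add_left (x y z : V2) : om (x + y) z = om x z + om y z := by simp [om]; ring
lemma om_add_right (x y z : V2) : om x (y + z) = om x y + om x z := by simp [om]; ring
lemma om_mulVec (A : M2) (x y : V2) : om (A *ᵥ x) (A *ᵥ y) = A.det * om x y := by
  simp [om, mulVec, dotProduct, det_fin_two]; ring
lemma om_star (x y : V2) : om (star x) (star y) = star (om x y) := by simp [om]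
lemma norm_om_swap (x y : V2) : ‖om y x‖ = ‖om x y‖ := by rw [om_swap, norm_neg]
lemma pluecker (a b c e : V2) : om a b * om c e - om a c * om b e + om a e * om b c = 0 := by
  simp only [om]; ring

/-- the transvection `x ↦ x + k om(u,x) u` -/
def tv (u : V2) (k : ℂ) : M2 :=
  !![1 - k * (u 0 * u 1), k * u 0 ^ 2; -(k * u 1 ^ 2), 1 + k * (u 0 * u 1)]

lemma tv_mulVec (u : V2) (k : ℂ) (x : V2) : tv u k *ᵥ x = x + (k * om u x) • u := by
  ext i; fin_cases i <;> simp [tv, om, mulVec, dotProduct] <;> ring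
lemma tv_det (u : V2) (k : ℂ) : (tv u k).det = 1 := by simp [tv, det_fin_two]; ring
lemma tv_trace (u : V2) (k : ℂ) : (tv u k).trace = 2 := by simp [tv, trace_fin_two]; ring
lemma tv_mul (u : V2) (k l : ℂ) : tv u k * tv u l = tv u (k + l) := by
  ext i j; fin_cases i <;> fin_cases j <;> simp [tv, mul_apply, Fin.sum_univ_two] <;> ring
lemma tv_zero (u : V2) : tv u 0 = 1 := by
  ext i j; fin_cases i <;> fin_cases j <;> simp [tv]
lemma tv_smul (u : V2) (r k : ℂ) : tv (r • u) k = tv u (k * r ^ 2) := by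
  ext i j; fin_cases i <;> fin_cases j <;> simp [tv] <;> ring
lemma trace_tv_mul (u w : V2) (k l : ℂ) :
    (tv u k * tv w l).trace = 2 - k * l * om u w ^ 2 := by
  simp [tv, om, trace_fin_two]; ring

lemma exists_tv {A : M2} (hd : A.det = 1) (ht : A.trace = 2) {u : V2} (hu : u ≠ 0) {s : ℂ}
    (h : A *ᵥ u = s • u) : ∃ k, A = tv u k := by
  rw [det_fin_two] at hd
  rw [trace_fin_two] at ht
  have h0 := congrFun h 0
  have h1 := congrFun h 1
  simp [mulVec, dotProduct] at h0 h1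
  have e0 : (s - 1) ^ 2 * u 0 = 0 := by
    linear_combination (-(u 0)) * hd + s * u 0 * ht + (A 1 1 - s) * h0 - A 0 1 * h1
  have e1 : (s - 1) ^ 2 * u 1 = 0 := by
    linear_combination (-(u 1)) * hd + s * u 1 * ht + (A 0 0 - s) * h1 - A 1 0 * h0
  have hne : u 0 ≠ 0 ∨ u 1 ≠ 0 := by
    by_contra e
    push Not at e
    exact hu (by ext i; fin_cases i <;> simp [e.1, e.2])
  have hs : s = 1 := by
    rcases hne with e | e
    · exact sub_eq_zero.1 (pow_eq_zero_iff two_ne_zero |>.1 ((mul_eq_zero.1 e0).resolve_right e))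
    · exact sub_eq_zero.1 (pow_eq_zero_iff two_ne_zero |>.1 ((mul_eq_zero.1 e1).resolve_right e))
  subst hs
  by_cases e : u 0 = 0
  · have e' := hne.resolve_left (not_not.2 e)
    rw [e] at h0 h1
    have a01 : A 0 1 = 0 := by simpa [e'] using h0
    have a11 : A 1 1 = 1 := mul_right_cancel₀ e' (by simpa using h1)
    refine ⟨-A 1 0 / u 1 ^ 2, ?_⟩
    ext i j; fin_cases i <;> fin_cases j <;> simp [tv, e, a01, a11]
    · linear_combination ht - a11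
    · field_simp
  · refine ⟨A 0 1 / u 0 ^ 2, ?_⟩
    ext i j; fin_cases i <;> fin_cases j <;> simp [tv] <;> field_simp
    · linear_combination h0
    · linear_combination u 0 * h1 - u 1 * h0 - u 0 * u 1 * ht + 2 * u 1 * h0
    · linear_combination u 0 * ht - h0

variable {F : Type} [Group F] {P : Type} [MulAction F P]

/-- the matrix `A` induces `g` -/
def Rp (v : P → V2) (A : M2) (g : F) : Prop :=
  A.det = 1 ∧ ∀ a, ∃ s : ℂ, A *ᵥ v a = s • v (g • a)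

/-- the matrix `A` composed with conjugation induces `g` -/
def Rq (v : P → V2) (A : M2) (g : F) : Prop :=
  A.det = 1 ∧ ∀ a, ∃ s : ℂ, A *ᵥ star (v a) = s • v (g • a)

lemma Rp.one (v : P → V2) : Rp v 1 (1 : F) := ⟨det_one, fun a => ⟨1, by simp⟩⟩

lemma Rp.mul {v : P → V2} {A B : M2} {g h : F} (hA : Rp v A g) (hB : Rp v B h) :
    Rp v (A * B) (g * h) := by
  refine ⟨by rw [det_mul, hA.1, hB.1, one_mul], fun a => ?_⟩
  obtain ⟨s, hs⟩ := hB.2 a
  obtain ⟨t, ht⟩ := hA.2 (h • a)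
  exact ⟨s * t, by rw [← mulVec_mulVec, hs, mulVec_smul, ht, smul_smul, mul_smul g]⟩

lemma Rp.inv {v : P → V2} (hv : ∀ a, v a ≠ 0) {A : M2} {g : F} (hA : Rp v A g) :
    Rp v A.adjugate g⁻¹ := by
  refine ⟨by rw [det_adjugate, hA.1, one_pow], fun a => ?_⟩
  obtain ⟨s, hs⟩ := hA.2 (g⁻¹ • a)
  rw [smul_inv_smul] at hs
  have e := congrArg (A.adjugate *ᵥ ·) hs
  simp only [mulVec_mulVec, adjugate_mul, hA.1, one_smul, one_mulVec, mulVec_smul] at e
  have s0 : s ≠ 0 := fun h => hv _ (by rw [e, h, zero_smul])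
  exact ⟨s⁻¹, by rw [e, smul_smul, inv_mul_cancel₀ s0, one_smul]⟩

lemma star_mulVec' (A : M2) (x : V2) : star (A *ᵥ x) = A.map star *ᵥ star x := by
  ext i; fin_cases i <;> simp [mulVec, dotProduct, Fin.sum_univ_two]

lemma Rq.mul {v : P → V2} {A B : M2} {g h : F} (hA : Rq v A g) (hB : Rq v B h) :
    Rp v (A * B.map star) (g * h) := by
  refine ⟨?_, fun a => ?_⟩
  · have := hB.1
    rw [det_fin_two] at this
    rw [det_mul, hA.1, one_mul, det_fin_two]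
    simpa using congrArg star this
  obtain ⟨s, hs⟩ := hB.2 a
  obtain ⟨t, ht⟩ := hA.2 (h • a)
  have e := congrArg star hs
  rw [star_mulVec', star_star, star_smul] at e
  exact ⟨star s * t, by rw [← mulVec_mulVec, e, mulVec_smul, ht, smul_smul, mul_smul g]⟩

/-- the group of pairs (matrix, induced element) -/
def RG (v : P → V2) (hv : ∀ a, v a ≠ 0) : Subgroup (SpecialLinearGroup (Fin 2) ℂ × F) where
  carrier := {p | Rp v p.1.1 p.2}
  one_mem' := Rp.one v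
  mul_mem' hA hB := hA.mul hB
  inv_mem' hA := hA.inv hv

/-- discreteness -/
def Disc (F : Type) [Group F] [MulAction F P] (v : P → V2) : Prop :=
  ∃ ε > 0, ∀ (A : M2) (g : F), Rp v A g → (∀ i j, ‖A i j - (1 : M2) i j‖ < ε) → g = 1

section Norm
open scoped Matrix.Norms.Operator

lemma entry_le (A : M2) (i j : Fin 2) : ‖A i j‖ ≤ ‖A‖ := by
  have := linfty_opNorm_mulVec A (Pi.single j 1)
  rw [mulVec_single_one, Pi.norm_single, norm_one, mul_one] at this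
  exact (norm_le_pi_norm (A.col j) i).trans this

lemma norm_le_rows {A : M2} {η : ℝ} (h : ∀ i, ‖A i 0‖ + ‖A i 1‖ ≤ η) : ‖A‖ ≤ η := by
  have h0 : 0 ≤ η := le_trans (by positivity) (h 0)
  rw [linfty_opNorm_def]
  have : (Finset.univ.sup fun i : Fin 2 => ∑ j : Fin 2, ‖A i j‖₊) ≤ ⟨η, h0⟩ :=
    Finset.sup_le fun i _ => by
      rw [Fin.sum_univ_two]
      exact h i
  exact this

lemma norm_le_of {a b c d : ℂ} {η : ℝ} (h1 : ‖a‖ + ‖b‖ ≤ η) (h2 : ‖c‖ + ‖d‖ ≤ η) :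
    ‖(!![a, b; c, d] : M2)‖ ≤ η :=
  norm_le_rows fun i => by fin_cases i <;> simpa

lemma sub_one_of (a b c d : ℂ) : (!![a, b; c, d] : M2) - 1 = !![a - 1, b; c, d - 1] := by
  ext i j; fin_cases i <;> fin_cases j <;> simp

lemma sub_diag_of (a b c d : ℂ) : (!![a, b; c, d] : M2) - !![a, 0; 0, d] = !![0, b; c, 0] := by
  ext i j; fin_cases i <;> fin_cases j <;> simp

/-- the frame matrix with columns `e`, `f` -/
def fr (e f : V2) : M2 := !![e 0, f 0; e 1, f 1]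

lemma fr_det (e f : V2) : (fr e f).det = om e f := by simp [fr, om, det_fin_two]; ring

lemma fr_conj (e f : V2) (A : M2) : (fr e f).adjugate * A * fr e f =
    !![om (A *ᵥ e) f, om (A *ᵥ f) f; om e (A *ᵥ e), om e (A *ᵥ f)] := by
  ext i j; fin_cases i <;> fin_cases j <;>
    simp [fr, om, adjugate_fin_two, mul_apply, Fin.sum_univ_two, mulVec, dotProduct, vecMul] <;>
    ring

lemma exists_frame {v : P → V2} (hv : ∀ a, v a ≠ 0) (hd : Disc F v) {e f : V2}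
    (h : om e f = 1) : ∃ ρ : RG (F := F) v hv →* M2,
      (∀ p, ρ p = (fr e f).adjugate * p.1.1.1 * fr e f) ∧
      Gap ρ ((MonoidHom.snd _ _).comp (RG v hv).subtype) := by
  let ρ : RG (F := F) v hv →* M2 :=
    { toFun := fun p => p.1.1.1, map_one' := rfl, map_mul' := fun _ _ => rfl }
  have : Gap ρ ((MonoidHom.snd _ _).comp (RG v hv).subtype) := by
    obtain ⟨ε, hε, hd⟩ := hd
    exact ⟨ε, hε, fun p hp => hd _ _ p.2 fun i j => (entry_le (ρ p - 1) i j).trans_lt hp⟩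
  exact this.conj (by rw [adjugate_mul, fr_det, h, one_smul])
    (by rw [mul_adjugate, fr_det, h, one_smul])

/-- Zassenhaus in a frame -/
theorem zas_frame [IsFreeGroup F] {v : P → V2} (hv : ∀ a, v a ≠ 0) (hd : Disc F v) {e f : V2}
    (h : om e f = 1) {A B : M2} {g g' : F} (hA : Rp v A g) (hB : Rp v B g')
    (h1 : ‖om (A *ᵥ e) f - 1‖ + ‖om (A *ᵥ f) f‖ ≤ 1 / 8)
    (h2 : ‖om e (A *ᵥ e)‖ + ‖om e (A *ᵥ f) - 1‖ ≤ 1 / 8)
    (h3 : ‖om (B *ᵥ e) f - 1‖ + ‖om (B *ᵥ f) f‖ ≤ 1 / 8)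
    (h4 : ‖om e (B *ᵥ e)‖ + ‖om e (B *ᵥ f) - 1‖ ≤ 1 / 8) : Commute g g' := by
  obtain ⟨ρ, hρ, hg⟩ := exists_frame hv hd h
  refine zassenhaus' (ct_free F) hg (g := ⟨(⟨A, hA.1⟩, g), hA⟩) (g' := ⟨(⟨B, hB.1⟩, g'), hB⟩)
    ?_ ?_
  · rw [hρ, fr_conj, sub_one_of]; exact norm_le_of h1 h2
  · rw [hρ, fr_conj, sub_one_of]; exact norm_le_of h3 h4

/-- almost diagonal bounded matrices induce commuting elements -/
theorem small_frame [IsFreeGroup F] {v : P → V2} (hv : ∀ a, v a ≠ 0) (hd : Disc F v) {e f : V2}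
    (h : om e f = 1) {A B : M2} {g g' : F} (hA : Rp v A g) (hB : Rp v B g') {K η : ℝ}
    (hK : 1 ≤ K) (a1 : ‖om (A *ᵥ e) f‖ ≤ K) (a2 : ‖om e (A *ᵥ f)‖ ≤ K)
    (b1 : ‖om (B *ᵥ e) f‖ ≤ K) (b2 : ‖om e (B *ᵥ f)‖ ≤ K)
    (a3 : ‖om (A *ᵥ f) f‖ ≤ η) (a4 : ‖om e (A *ᵥ e)‖ ≤ η)
    (b3 : ‖om (B *ᵥ f) f‖ ≤ η) (b4 : ‖om e (B *ᵥ e)‖ ≤ η)
    (hη : 1024 * K ^ 5 * η ≤ 1) : Commute g g' := by
  obtain ⟨ρ, hρ, hg⟩ := exists_frame hv hd h
  have η0 : 0 ≤ η := (norm_nonneg _).trans a3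
  have ηK : η ≤ K := by
    have : 1 ≤ K ^ 5 := one_le_pow₀ hK
    nlinarith
  have key : ∀ (C : M2) (x : F) (hC : Rp v C x), ‖om (C *ᵥ e) f‖ ≤ K → ‖om e (C *ᵥ f)‖ ≤ K →
      ‖om (C *ᵥ f) f‖ ≤ η → ‖om e (C *ᵥ e)‖ ≤ η →
      ‖ρ ⟨(⟨C, hC.1⟩, x), hC⟩‖ ≤ 2 * K ∧ ‖ρ (⟨(⟨C, hC.1⟩, x), hC⟩)⁻¹‖ ≤ 2 * K ∧
      ‖ρ ⟨(⟨C, hC.1⟩, x), hC⟩ - !![om (C *ᵥ e) f, 0; 0, om e (C *ᵥ f)]‖ ≤ η ∧
      ‖!![om (C *ᵥ e) f, 0; 0, om e (C *ᵥ f)]‖ ≤ 2 * K := by
    intro C x hC c1 c2 c3 c4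
    refine ⟨?_, ?_, ?_, ?_⟩
    · rw [hρ, fr_conj]; exact norm_le_of (by linarith) (by linarith)
    · have e1 : ρ (⟨(⟨C, hC.1⟩, x), hC⟩)⁻¹ = (ρ ⟨(⟨C, hC.1⟩, x), hC⟩).adjugate := by
        rw [hρ, hρ, adjugate_mul_distrib, adjugate_mul_distrib, adjugate_adjugate']
        simp [mul_assoc]
      rw [e1, hρ, fr_conj, adjugate_fin_two_of]
      exact norm_le_of (by rw [norm_neg]; linarith) (by rw [norm_neg]; linarith)
    · rw [hρ, fr_conj, sub_diag_of]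
      exact norm_le_of (by rwa [norm_zero, zero_add]) (by rwa [norm_zero, add_zero])
    · exact norm_le_of (by rw [norm_zero]; linarith) (by rw [norm_zero]; linarith)
  obtain ⟨p1, p2, p3, -⟩ := key A g hA a1 a2 a3 a4
  obtain ⟨q1, q2, q3, q4⟩ := key B g' hB b1 b2 b3 b4
  refine comm_of_bracket' hg (K := 2 * K) (by linarith) p1 p2 q1 q2 ?_
  have := norm_bracket_le (by rw [mul_fin_two, mul_fin_two]; simp [mul_comm])
    p1 q4 p3 q3
  calc _ ≤ 4 * (2 * K) * η * (2 * K) ^ 4 := by gcongr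
    _ = (1024 * K ^ 5 * η) / 8 := by ring
    _ ≤ _ := by linarith

end Norm

end Pool.Agent.Lib.THU28
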