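import Pool.Agent.Lib.THU28.Zas

/-!
Limits of representations along ultrafilters and uniform counting of short elements.
-/

namespace Pool.Agent.Lib.THU28

open Filter Topology

variable {R : Type*} [NormedRing R] {Γ : Type*} [Group Γ]

/-- boundedness passes from generators (and their inverses) to all elements -/
theorem bdd_of_gens {ι : Type*} {l : Filter ι} {ρ : ι → Γ →* R} {S : Set Γ}
    (hS : Subgroup.closure S = ⊤)
    (h : ∀ s ∈ S, ∃ C, ∀ᶠ n in l, ‖ρ n s‖ ≤ C ∧ ‖ρ n s⁻¹‖ ≤ C) (g : Γ) :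
    ∃ C, ∀ᶠ n in l, ‖ρ n g‖ ≤ C ∧ ‖ρ n g⁻¹‖ ≤ C := by
  have hg : g ∈ Subgroup.closure S := hS ▸ Subgroup.mem_top g
  induction hg using Subgroup.closure_induction with
  | mem s hs => exact h s hs
  | one => exact ⟨‖(1 : R)‖, Eventually.of_forall fun n => by simp⟩
  | mul x y _ _ hx hy =>
    obtain ⟨C, hC⟩ := hx
    obtain ⟨D, hD⟩ := hy
    refine ⟨C * D, (hC.and hD).mono fun n ⟨⟨h1, h2⟩, h3, h4⟩ => ⟨?_, ?_⟩⟩
    · rw [map_mul]
      exact (norm_mul_le _ _).trans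
        (mul_le_mul h1 h3 (norm_nonneg _) ((norm_nonneg _).trans h1))
    · rw [mul_inv_rev, map_mul, mul_comm C]
      exact (norm_mul_le _ _).trans
        (mul_le_mul h4 h2 (norm_nonneg _) ((norm_nonneg _).trans h4))
  | inv x _ hx =>
    obtain ⟨C, hC⟩ := hx
    exact ⟨C, hC.mono fun n hn => by rw [inv_inv]; exact hn.symm⟩

/-- a pointwise bounded family of representations has a limit along an ultrafilter -/
theorem exists_lim [ProperSpace R] {ι : Type*} (U : Ultrafilter ι) (ρ : ι → Γ →* R)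
    (h : ∀ g, ∃ C, ∀ᶠ n in U, ‖ρ n g‖ ≤ C) :
    ∃ σ : Γ →* R, ∀ g, Tendsto (fun n => ρ n g) U (𝓝 (σ g)) := by
  have : ∀ g, ∃ x, Tendsto (fun n => ρ n g) U (𝓝 x) := fun g => by
    obtain ⟨C, hC⟩ := h g
    obtain ⟨x, -, hx⟩ := (isCompact_closedBall (0 : R) C).ultrafilter_le_nhds
      (U.map fun n => ρ n g) (by
        rw [le_principal_iff, Ultrafilter.coe_map, mem_map]
        exact hC.mono fun n hn => by simpa using hn)
    exact ⟨x, hx⟩
  choose σ hσ using this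
  refine ⟨⟨⟨σ, ?_⟩, fun x y => ?_⟩, hσ⟩
  · exact tendsto_nhds_unique (hσ 1) (by simp)
  · exact tendsto_nhds_unique (hσ (x * y)) (by simpa using (hσ x).mul (hσ y))

/-- uniform bound for the number of short elements of a representation with a given gap -/
theorem card_short_le [ProperSpace R] {ε : ℝ} (hε : 0 < ε) (M : ℝ) : ∃ N : ℕ,
    ∀ (Γ : Type) [Group Γ] (ρ : Γ →* R), (∀ g, ‖ρ g - 1‖ < ε → g = 1) →
      ∀ T : Finset Γ, (∀ g ∈ T, ‖ρ g‖ ≤ M ∧ ‖ρ g⁻¹‖ ≤ M) → T.card ≤ N := by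
  classical
  set δ : ℝ := ε / (2 * (|M| + 1)) with hδ
  have hδ0 : 0 < δ := by positivity
  obtain ⟨F, -, hF, hc⟩ := (isCompact_closedBall (0 : R) M).finite_cover_balls hδ0
  refine ⟨hF.toFinset.card, fun Γ _ ρ hd T hT => ?_⟩
  have : ∀ g ∈ T, ∃ x ∈ hF.toFinset, ρ g ∈ Metric.ball x δ := fun g hg => by
    have := hc (show ρ g ∈ Metric.closedBall (0 : R) M by simpa using (hT g hg).1)
    simpa using this
  choose! f hf hf' using this
  refine Finset.card_le_card_of_injOn f hf fun g hg g' hg' e => ?_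
  have h1 : ‖ρ g' - ρ g‖ < 2 * δ := by
    have a := hf' g hg
    have b := hf' g' hg'
    rw [← e] at b
    have := dist_triangle_right (ρ g') (ρ g) (f g)
    rw [Metric.mem_ball] at a b
    rw [← dist_eq_norm]; linarith
  have h2 : ρ (g⁻¹ * g') - 1 = ρ g⁻¹ * (ρ g' - ρ g) := by
    rw [mul_sub, ← map_mul, ← map_mul, inv_mul_cancel, map_one]
  have h3 : ‖ρ (g⁻¹ * g') - 1‖ < ε := by
    rw [h2]
    have hM : ‖ρ g⁻¹‖ ≤ |M| + 1 := (hT g hg).2.trans ((le_abs_self M).trans (by linarith))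
    calc _ ≤ ‖ρ g⁻¹‖ * ‖ρ g' - ρ g‖ := norm_mul_le _ _
      _ ≤ (|M| + 1) * ‖ρ g' - ρ g‖ := by gcongr
      _ < (|M| + 1) * (2 * δ) := by gcongr
      _ = ε := by rw [hδ]; field_simp
  exact inv_mul_eq_one.1 (hd _ h3)

/-- a discrete faithful representation has finitely many short elements -/
theorem finite_short [ProperSpace R] {Γ : Type} [Group Γ] {ρ : Γ →* R} (h : DF ρ) (M : ℝ) :
    {g | ‖ρ g‖ ≤ M ∧ ‖ρ g⁻¹‖ ≤ M}.Finite := by
  obtain ⟨ε, hε, hd⟩ := h
  obtain ⟨N, hN⟩ := card_short_le (R := R) hε M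
  by_contra hi
  obtain ⟨T, hT, hc⟩ := Set.Infinite.exists_subset_card_eq hi (N + 1)
  have := hN Γ ρ hd T fun g hg => hT hg
  omega

theorem DF.injective {ρ : Γ →* R} (h : DF ρ) : Function.Injective ρ := by
  obtain ⟨ε, hε, hd⟩ := h
  rw [injective_iff_map_eq_one]
  exact fun g hg => hd g (by simpa [hg] using hε)

/-- finitely many short elements and injectivity give a gap -/
theorem df_of_finite {ρ : Γ →* R} (hi : Function.Injective ρ) {r : ℝ} (hr : 0 < r)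
    (hf : {g | ‖ρ g - 1‖ < r}.Finite) : DF ρ := by
  have : ∀ᶠ ε in 𝓝[>] (0 : ℝ), ∀ g ∈ {g | ‖ρ g - 1‖ < r}, g ≠ 1 → ε < ‖ρ g - 1‖ := by
    rw [eventually_all_finite hf]
    intro g _
    by_cases h1 : g = 1
    · exact Eventually.of_forall fun _ h => (h h1).elim
    · have : 0 < ‖ρ g - 1‖ := norm_pos_iff.2 (sub_ne_zero.2 fun e => h1 (hi (by simpa using e)))
      exact ((gt_mem_nhds this).filter_mono nhdsWithin_le_nhds).mono fun _ h _ => h
  obtain ⟨ε, ⟨h1, h2⟩, h3⟩ := ((this.and ((gt_mem_nhds hr).filter_mono nhdsWithin_le_nhds)).and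
    self_mem_nhdsWithin).exists
  refine ⟨ε, h3, fun g hg => by_contra fun h => ?_⟩
  exact absurd (h1 g (hg.trans h2) h) (not_lt.2 hg.le)

end Pool.Agent.Lib.THU28
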