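import Pool.Agent.Lib.THU28.Lim

/-!
Almost commuting bounded elements of a discrete free group commute.
-/

namespace Pool.Agent.Lib.THU28

variable {R : Type*} [NormedRing R] [NormOneClass R] {A : Type} [Group A] [IsFreeGroup A]

theorem comm_of_small {ρ : A →* R} (h : DF ρ) {x y : A}
    (hu : ‖ρ (x * y * x⁻¹ * y⁻¹) - 1‖ ≤ 1 / 8)
    (hx : ‖ρ (x * (x * y * x⁻¹ * y⁻¹) * x⁻¹) - 1‖ ≤ 1 / 8)
    (hy : ‖ρ (y * (x * y * x⁻¹ * y⁻¹) * y⁻¹) - 1‖ ≤ 1 / 8) : Commute x y := by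
  by_cases h1 : x * y * x⁻¹ * y⁻¹ = 1
  · rw [mul_inv_eq_one, mul_inv_eq_iff_eq_mul] at h1
    exact h1
  exact ct h1 (maln (zassenhaus (ct_free A) h hu hx)) (maln (zassenhaus (ct_free A) h hu hy))

/-- bounded elements whose additive commutator is small commute -/
theorem comm_of_bracket {ρ : A →* R} (h : DF ρ) {x y : A} {K : ℝ} (hK : 1 ≤ K)
    (h1 : ‖ρ x‖ ≤ K) (h2 : ‖ρ x⁻¹‖ ≤ K) (h3 : ‖ρ y‖ ≤ K) (h4 : ‖ρ y⁻¹‖ ≤ K)
    (hb : ‖ρ x * ρ y - ρ y * ρ x‖ * K ^ 4 ≤ 1 / 8) : Commute x y := by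
  have e : ρ (x * y * x⁻¹ * y⁻¹) - 1 = (ρ x * ρ y - ρ y * ρ x) * ρ x⁻¹ * ρ y⁻¹ := by
    simp only [sub_mul, ← map_mul]
    congr 1
    rw [← map_one ρ]; congr 1; group
  set b := ‖ρ x * ρ y - ρ y * ρ x‖
  have b0 : 0 ≤ b := norm_nonneg _
  have hu : ‖ρ (x * y * x⁻¹ * y⁻¹) - 1‖ ≤ b * K * K := by
    rw [e]
    exact (norm_mul_le _ _).trans (by gcongr; exact (norm_mul_le _ _).trans (by gcongr))
  have k : ∀ z : A, ‖ρ z‖ ≤ K → ‖ρ z⁻¹‖ ≤ K →
      ‖ρ (z * (x * y * x⁻¹ * y⁻¹) * z⁻¹) - 1‖ ≤ 1 / 8 := fun z a c =>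
    (norm_conj_sub_one ρ z _).trans (by
      calc _ ≤ K * (b * K * K) * K := by gcongr
        _ = b * K ^ 4 := by ring
        _ ≤ _ := hb)
  refine comm_of_small h (hu.trans ?_) (k x h1 h2) (k y h3 h4)
  calc b * K * K = b * K ^ 2 := by ring
    _ ≤ b * K ^ 4 := by gcongr; norm_num
    _ ≤ _ := hb

omit [NormOneClass R] in
/-- the bracket of two perturbations of commuting elements -/
theorem norm_bracket_le {a b d d' : R} (hd : d * d' = d' * d) {K δ : ℝ} (ha : ‖a‖ ≤ K)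
    (hb : ‖d'‖ ≤ K) (h1 : ‖a - d‖ ≤ δ) (h2 : ‖b - d'‖ ≤ δ) : ‖a * b - b * a‖ ≤ 4 * K * δ := by
  have e : a * b - b * a =
      a * (b - d') - (b - d') * a + ((a - d) * d' - d' * (a - d)) := by
    have : (a - d) * d' - d' * (a - d) = a * d' - d' * a := by
      rw [sub_mul, mul_sub, hd]; abel
    rw [this]; noncomm_ring
  have K0 : 0 ≤ K := (norm_nonneg _).trans ha
  have d0 : 0 ≤ δ := (norm_nonneg _).trans h1
  rw [e]
  calc _ ≤ (‖a‖ * ‖b - d'‖ + ‖b - d'‖ * ‖a‖) + (‖a - d‖ * ‖d'‖ + ‖d'‖ * ‖a - d‖) :=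
        (norm_add_le _ _).trans (add_le_add
          ((norm_sub_le _ _).trans (add_le_add (norm_mul_le _ _) (norm_mul_le _ _)))
          ((norm_sub_le _ _).trans (add_le_add (norm_mul_le _ _) (norm_mul_le _ _))))
    _ ≤ (K * δ + δ * K) + (δ * K + K * δ) := by gcongr
    _ = _ := by ring

omit [NormOneClass R] [IsFreeGroup A] in
/-- conjugation of a representation by a unit -/
def conjRep (ρ : A →* R) (P : Rˣ) : A →* R where
  toFun g := (P : R) * ρ g * (P⁻¹ : Rˣ)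
  map_one' := by simp
  map_mul' x y := by simp [mul_assoc]

omit [NormOneClass R] [IsFreeGroup A] in
theorem DF.conj {ρ : A →* R} (h : DF ρ) (P : Rˣ) : DF (conjRep ρ P) := by
  obtain ⟨ε, hε, hd⟩ := h
  set M := ‖((P⁻¹ : Rˣ) : R)‖ * ‖(P : R)‖ + 1
  have hM : 0 < M := by positivity
  refine ⟨ε / M, by positivity, fun g hg => hd g ?_⟩
  have e : ρ g - 1 = (P⁻¹ : Rˣ) * (conjRep ρ P g - 1) * (P : R) := by
    simp [conjRep, mul_sub, sub_mul, mul_assoc]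
  rw [lt_div_iff₀ hM] at hg
  rw [e]
  calc _ ≤ ‖((P⁻¹ : Rˣ) : R)‖ * ‖conjRep ρ P g - 1‖ * ‖(P : R)‖ :=
        (norm_mul_le _ _).trans (by gcongr; exact norm_mul_le _ _)
    _ ≤ ‖conjRep ρ P g - 1‖ * M := by
        have := norm_nonneg (conjRep ρ P g - 1)
        simp only [M]; nlinarith
    _ < ε := hg

omit [NormOneClass R] in
/-- if squares commute then the elements commute -/
theorem comm_of_sq {x y : A} (h : Commute (x ^ 2) (y ^ 2)) : Commute x y := by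
  have h1 : Commute (x ^ (2 : ℤ)) (y ^ 2) := by exact_mod_cast h
  have h2 : Commute (y ^ (2 : ℤ)) x := by
    exact_mod_cast (commute_of_zpow two_ne_zero h1).symm
  exact (commute_of_zpow two_ne_zero h2).symm

end Pool.Agent.Lib.THU28
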