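import Pool.Agent.Lib.THU28.Free

/-!
Zassenhaus lemma and Chuckrow's theorem for commutative transitive groups, in any normed ring.
-/

namespace Pool.Agent.Lib.THU28

open Filter Topology

section Ring

variable {R : Type*} [NormedRing R] [NormOneClass R]

lemma norm_inv_le {x y : R} (h : x * y = 1) (hx : ‖x - 1‖ ≤ 1 / 8) : ‖y‖ ≤ 8 / 7 := by
  have e : y = 1 - (x - 1) * y := by rw [sub_mul, h, one_mul]; abel
  have : ‖y‖ ≤ 1 + ‖x - 1‖ * ‖y‖ := by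
    calc ‖y‖ = ‖1 - (x - 1) * y‖ := by rw [← e]
      _ ≤ ‖(1 : R)‖ + ‖(x - 1) * y‖ := norm_sub_le _ _
      _ ≤ 1 + ‖x - 1‖ * ‖y‖ := by rw [norm_one]; gcongr; exact norm_mul_le _ _
  nlinarith [norm_nonneg y]

omit [NormOneClass R] in
lemma norm_comm_le (x y x' y' : R) (hx : x * x' = 1) (hy : y * y' = 1) :
    ‖x * y * x' * y' - 1‖ ≤ 2 * ‖x - 1‖ * ‖y - 1‖ * ‖x'‖ * ‖y'‖ := by
  have e : x * y * x' * y' - 1 = ((x - 1) * (y - 1) - (y - 1) * (x - 1)) * x' * y' := by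
    have : y * x * x' * y' = 1 := by rw [mul_assoc y, hx, mul_one, hy]
    have e2 : (x - 1) * (y - 1) - (y - 1) * (x - 1) = x * y - y * x := by noncomm_ring
    rw [e2, sub_mul, sub_mul, this]
  rw [e]
  calc _ ≤ ‖(x - 1) * (y - 1) - (y - 1) * (x - 1)‖ * ‖x'‖ * ‖y'‖ :=
        (norm_mul_le _ _).trans (by gcongr; exact norm_mul_le _ _)
    _ ≤ (‖x - 1‖ * ‖y - 1‖ + ‖y - 1‖ * ‖x - 1‖) * ‖x'‖ * ‖y'‖ := by
        gcongr
        exact (norm_sub_le _ _).trans (add_le_add (norm_mul_le _ _) (norm_mul_le _ _))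
    _ = _ := by ring

variable {Γ : Type*} [Group Γ]

/-- `ρ` is faithful with discrete image -/
def DF (ρ : Γ →* R) : Prop := ∃ ε > 0, ∀ g, ‖ρ g - 1‖ < ε → g = 1

/-- commutative transitivity -/
def CT (Γ : Type*) [Group Γ] : Prop :=
  ∀ a b c : Γ, a ≠ 1 → Commute a b → Commute a c → Commute b c

/-- Zassenhaus: elements close to the identity commute. -/
theorem zassenhaus (hΓ : CT Γ) {ρ : Γ →* R} (h : DF ρ) {g g' : Γ} (hg : ‖ρ g - 1‖ ≤ 1 / 8)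
    (hg' : ‖ρ g' - 1‖ ≤ 1 / 8) : Commute g g' := by
  obtain ⟨ε, hε, hd⟩ := h
  by_cases h1 : g = 1
  · rw [h1]; exact Commute.one_left _
  set S : Set ℝ := {r | ∃ u : Γ, u ≠ 1 ∧ r = ‖ρ u - 1‖} with hS
  have hne : S.Nonempty := ⟨_, g, h1, rfl⟩
  have hlb : ∀ r ∈ S, ε ≤ r := by
    rintro r ⟨u, hu, rfl⟩
    exact not_lt.1 fun e => hu (hd u e)
  have hbdd : BddBelow S := ⟨ε, hlb⟩
  have hm : ε ≤ sInf S := le_csInf hne hlb
  have hm8 : sInf S ≤ 1 / 8 := (csInf_le hbdd ⟨g, h1, rfl⟩).trans hg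
  obtain ⟨_, ⟨u, hu, rfl⟩, hlt⟩ := exists_lt_of_csInf_lt hne
    (show sInf S < 2 * sInf S by linarith)
  have hu4 : ‖ρ u - 1‖ ≤ 1 / 4 := by linarith
  have key : ∀ v : Γ, ‖ρ v - 1‖ ≤ 1 / 8 → Commute u v := fun v hv => by
    by_contra hc
    have hne1 : u * v * u⁻¹ * v⁻¹ ≠ 1 := fun e => hc (by
      rw [mul_inv_eq_one, mul_inv_eq_iff_eq_mul] at e
      exact e)
    have h2 : sInf S ≤ ‖ρ (u * v * u⁻¹ * v⁻¹) - 1‖ := csInf_le hbdd ⟨_, hne1, rfl⟩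
    have e1 : ρ u * ρ u⁻¹ = 1 := by rw [← map_mul, mul_inv_cancel, map_one]
    have e2 : ρ v * ρ v⁻¹ = 1 := by rw [← map_mul, mul_inv_cancel, map_one]
    have h3 := norm_comm_le _ _ _ _ e1 e2
    have h4 := norm_inv_le e2 hv
    have h5 : ‖ρ u⁻¹‖ ≤ 4 / 3 := by
      have e : ρ u⁻¹ = 1 - (ρ u - 1) * ρ u⁻¹ := by rw [sub_mul, e1, one_mul]; abel
      have : ‖ρ u⁻¹‖ ≤ 1 + ‖ρ u - 1‖ * ‖ρ u⁻¹‖ := by
        calc ‖ρ u⁻¹‖ = ‖1 - (ρ u - 1) * ρ u⁻¹‖ := by rw [← e]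
          _ ≤ ‖(1 : R)‖ + ‖(ρ u - 1) * ρ u⁻¹‖ := norm_sub_le _ _
          _ ≤ _ := by rw [norm_one]; gcongr; exact norm_mul_le _ _
      nlinarith [norm_nonneg (ρ u⁻¹)]
    rw [map_mul, map_mul, map_mul] at h2
    have h6 : 2 * ‖ρ u - 1‖ * ‖ρ v - 1‖ * ‖ρ u⁻¹‖ * ‖ρ v⁻¹‖ ≤
        2 * ‖ρ u - 1‖ * (1 / 8) * (4 / 3) * (8 / 7) := by gcongr
    linarith
  exact hΓ u g g' hu (key g hg) (key g' hg')

omit [NormOneClass R] in
lemma norm_conj_sub_one (ρ : Γ →* R) (a g : Γ) :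
    ‖ρ (a * g * a⁻¹) - 1‖ ≤ ‖ρ a‖ * ‖ρ g - 1‖ * ‖ρ a⁻¹‖ := by
  have e : ρ (a * g * a⁻¹) - 1 = ρ a * (ρ g - 1) * ρ a⁻¹ := by
    rw [mul_sub, sub_mul, mul_one, ← map_mul, ← map_mul, ← map_mul, mul_inv_cancel, map_one]
  rw [e]
  exact (norm_mul_le _ _).trans (by gcongr; exact norm_mul_le _ _)

/-- Chuckrow: a pointwise limit of discrete faithful representations is discrete and faithful. -/
theorem chuckrow (hΓ : CT Γ) {a b : Γ}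
    (hab : ∀ u : Γ, u ≠ 1 → ¬ Commute u (a * u * a⁻¹) ∨ ¬ Commute u (b * u * b⁻¹))
    {ι : Type*} {l : Filter ι} [l.NeBot] {ρ : ι → Γ →* R} {σ : Γ →* R}
    (hd : ∀ᶠ n in l, DF (ρ n)) (hl : ∀ g, Tendsto (fun n => ρ n g) l (𝓝 (σ g))) : DF σ := by
  set M : ℝ := 1 + ‖σ a‖ * ‖σ a⁻¹‖ + ‖σ b‖ * ‖σ b⁻¹‖ with hM
  have hM1 : 1 ≤ M := by
    have := mul_nonneg (norm_nonneg (σ a)) (norm_nonneg (σ a⁻¹))
    have := mul_nonneg (norm_nonneg (σ b)) (norm_nonneg (σ b⁻¹))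
    linarith
  refine ⟨1 / (8 * M), by positivity, fun g hg => ?_⟩
  by_contra h1
  have hg' : ‖σ g - 1‖ * M < 1 / 8 := by
    rw [lt_div_iff₀ (by positivity)] at hg; linarith
  have n0 := norm_nonneg (σ g - 1)
  have pa := mul_nonneg (norm_nonneg (σ a)) (norm_nonneg (σ a⁻¹))
  have pb := mul_nonneg (norm_nonneg (σ b)) (norm_nonneg (σ b⁻¹))
  have s0 : ‖σ g - 1‖ < 1 / 8 := by nlinarith
  have sa : ‖σ (a * g * a⁻¹) - 1‖ < 1 / 8 :=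
    (norm_conj_sub_one σ a g).trans_lt (by nlinarith)
  have sb : ‖σ (b * g * b⁻¹) - 1‖ < 1 / 8 :=
    (norm_conj_sub_one σ b g).trans_lt (by nlinarith)
  have ev : ∀ u, ‖σ u - 1‖ < 1 / 8 → ∀ᶠ n in l, ‖ρ n u - 1‖ ≤ 1 / 8 := fun u hu =>
    (((hl u).sub_const 1).norm.eventually (gt_mem_nhds hu)).mono fun n hn => hn.le
  obtain ⟨n, h0, h2, h3, h4⟩ := (hd.and ((ev _ s0).and ((ev _ sa).and (ev _ sb)))).exists
  rcases hab g h1 with h | h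
  · exact h (zassenhaus hΓ h0 h2 h3)
  · exact h (zassenhaus hΓ h0 h2 h4)

/-- uniform discreteness: the gap only depends on bounds for two generators -/
theorem uniform_gap (hΓ : CT Γ) {a b : Γ}
    (hab : ∀ u : Γ, u ≠ 1 → ¬ Commute u (a * u * a⁻¹) ∨ ¬ Commute u (b * u * b⁻¹))
    {ρ : Γ →* R} (hd : DF ρ) {M : ℝ} (hM : 1 ≤ M) (ha : ‖ρ a‖ * ‖ρ a⁻¹‖ ≤ M)
    (hb : ‖ρ b‖ * ‖ρ b⁻¹‖ ≤ M) {g : Γ} (hg : ‖ρ g - 1‖ * M ≤ 1 / 8) : g = 1 := by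
  by_contra h1
  have n0 := norm_nonneg (ρ g - 1)
  have s0 : ‖ρ g - 1‖ ≤ 1 / 8 := by nlinarith
  have sa : ‖ρ (a * g * a⁻¹) - 1‖ ≤ 1 / 8 := (norm_conj_sub_one ρ a g).trans (by nlinarith)
  have sb : ‖ρ (b * g * b⁻¹) - 1‖ ≤ 1 / 8 := (norm_conj_sub_one ρ b g).trans (by nlinarith)
  rcases hab g h1 with h | h
  · exact h (zassenhaus hΓ hd s0 sa)
  · exact h (zassenhaus hΓ hd s0 sb)

omit [NormOneClass R] in
/-- extension to a group with a finitely generated normal subgroup with trivial centralizer -/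
theorem df_of_normal {G : Type*} [Group G] (N : Subgroup G) [hN : N.Normal] (hfg : N.FG)
    (hc : ∀ g : G, (∀ x ∈ N, g * x = x * g) → g = 1) {ρ : G →* R}
    (hd : ∃ ε > 0, ∀ x ∈ N, ‖ρ x - 1‖ < ε → x = 1) : DF ρ := by
  obtain ⟨ε, hε, hd⟩ := hd
  obtain ⟨S, hS⟩ := hfg
  have c1 : ∀ x : G, ContinuousAt (fun p : R × R => p.1 * ρ x * p.2 * ρ x⁻¹ - 1) (1, 1) :=
    fun x => by fun_prop
  have ev : ∀ᶠ p : R × R in 𝓝 (1, 1), ∀ x ∈ S, ‖p.1 * ρ x * p.2 * ρ x⁻¹ - 1‖ < ε := by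
    rw [Filter.eventually_all_finset]
    intro x _
    have := (c1 x).norm.tendsto
    simp only [one_mul, mul_one, ← map_mul, mul_inv_cancel, map_one, sub_self, norm_zero] at this
    exact this.eventually (gt_mem_nhds hε)
  obtain ⟨δ, hδ, hb⟩ := Metric.eventually_nhds_iff.1 ev
  set K : ℝ := 2 * (‖(1 : R)‖ + 1)
  have hK : 0 < K := by positivity
  refine ⟨min (1 / 2) (δ / K), by positivity, fun g hg => hc g fun x hx => ?_⟩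
  have g1 : ‖ρ g - 1‖ < 1 / 2 := hg.trans_le (min_le_left _ _)
  have g2 : ‖ρ g - 1‖ * K < δ := (lt_div_iff₀ hK).1 (hg.trans_le (min_le_right _ _))
  have e1 : ρ g * ρ g⁻¹ = 1 := by rw [← map_mul, mul_inv_cancel, map_one]
  have n0 := norm_nonneg (ρ g - 1)
  have n1 := norm_nonneg (1 : R)
  have h5 : ‖ρ g⁻¹‖ ≤ 2 * ‖(1 : R)‖ := by
    have e : ρ g⁻¹ = 1 - (ρ g - 1) * ρ g⁻¹ := by rw [sub_mul, e1, one_mul]; abel
    have : ‖ρ g⁻¹‖ ≤ ‖(1 : R)‖ + ‖ρ g - 1‖ * ‖ρ g⁻¹‖ := by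
      calc ‖ρ g⁻¹‖ = ‖1 - (ρ g - 1) * ρ g⁻¹‖ := by rw [← e]
        _ ≤ ‖(1 : R)‖ + ‖(ρ g - 1) * ρ g⁻¹‖ := norm_sub_le _ _
        _ ≤ _ := by gcongr; exact norm_mul_le _ _
    nlinarith [norm_nonneg (ρ g⁻¹)]
  have h6 : ‖ρ g⁻¹ - 1‖ < δ := by
    have e : ρ g⁻¹ - 1 = -((ρ g - 1) * ρ g⁻¹) := by rw [sub_mul, e1, one_mul]; abel
    rw [e, norm_neg]
    refine (norm_mul_le _ _).trans_lt ?_
    have : ‖ρ g - 1‖ * ‖ρ g⁻¹‖ ≤ ‖ρ g - 1‖ * K := by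
      gcongr; simp only [K]; linarith
    linarith
  have h7 : dist (ρ g, ρ g⁻¹) ((1 : R), (1 : R)) < δ := by
    rw [Prod.dist_eq, dist_eq_norm, dist_eq_norm]
    refine max_lt ?_ h6
    have : ‖ρ g - 1‖ * 1 ≤ ‖ρ g - 1‖ * K := by gcongr; simp only [K]; linarith
    linarith
  have h8 : ∀ y ∈ S, g * y = y * g := fun y hy => by
    have hyN : y ∈ N := hS ▸ Subgroup.subset_closure hy
    have := hd (g * y * g⁻¹ * y⁻¹) (N.mul_mem (hN.conj_mem _ hyN g) (N.inv_mem hyN)) (by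
      simpa only [map_mul] using hb h7 y hy)
    rw [mul_inv_eq_one, mul_inv_eq_iff_eq_mul] at this
    exact this
  have : N ≤ Subgroup.centralizer {g} := by
    rw [← hS, Subgroup.closure_le]
    intro y hy
    simpa [Subgroup.mem_centralizer_iff] using h8 y hy
  simpa [Subgroup.mem_centralizer_iff] using this hx

end Ring

theorem ct_free (A : Type) [Group A] [IsFreeGroup A] : CT A := fun _ _ _ => ct

end Pool.Agent.Lib.THU28
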