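import Pool.Agent.Lib.THU28.Small

/-!
Zassenhaus lemma for a representation of a group that maps to a free group
(projective representations, representations up to a finite kernel).
-/

namespace Pool.Agent.Lib.THU28

variable {R : Type*} [NormedRing R] [NormOneClass R] {Γ F : Type*} [Group Γ] [Group F]

/-- elements close to `1` lie in the kernel of `π` -/
def Gap (ρ : Γ →* R) (π : Γ →* F) : Prop := ∃ ε > 0, ∀ g, ‖ρ g - 1‖ < ε → π g = 1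

theorem zassenhaus' (hF : CT F) {ρ : Γ →* R} {π : Γ →* F} (h : Gap ρ π) {g g' : Γ}
    (hg : ‖ρ g - 1‖ ≤ 1 / 8) (hg' : ‖ρ g' - 1‖ ≤ 1 / 8) : Commute (π g) (π g') := by
  obtain ⟨ε, hε, hd⟩ := h
  by_cases h1 : π g = 1
  · rw [h1]; exact Commute.one_left _
  set S : Set ℝ := {r | ∃ u : Γ, π u ≠ 1 ∧ r = ‖ρ u - 1‖} with hS
  have hne : S.Nonempty := ⟨_, g, h1, rfl⟩
  have hlb : ∀ r ∈ S, ε ≤ r := by
    rintro r ⟨u, hu, rfl⟩
    exact not_lt.1 fun e => hu (hd u e)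
  have hbdd : BddBelow S := ⟨ε, hlb⟩
  have hm : ε ≤ sInf S := le_csInf hne hlb
  have hm8 : sInf S ≤ 1 / 8 := (csInf_le hbdd ⟨g, h1, rfl⟩).trans hg
  obtain ⟨_, ⟨u, hu, rfl⟩, hlt⟩ := exists_lt_of_csInf_lt hne
    (show sInf S < 2 * sInf S by linarith)
  have hu4 : ‖ρ u - 1‖ ≤ 1 / 4 := by linarith
  have key : ∀ v : Γ, ‖ρ v - 1‖ ≤ 1 / 8 → Commute (π u) (π v) := fun v hv => by
    by_contra hc
    have hne1 : π (u * v * u⁻¹ * v⁻¹) ≠ 1 := fun e => hc (by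
      rw [map_mul, map_mul, map_mul, map_inv, map_inv, mul_inv_eq_one,
        mul_inv_eq_iff_eq_mul] at e
      exact e)
    have h2 : sInf S ≤ ‖ρ (u * v * u⁻¹ * v⁻¹) - 1‖ := csInf_le hbdd ⟨_, hne1, rfl⟩
    have e1 : ρ u * ρ u⁻¹ = 1 := by rw [← map_mul, mul_inv_cancel, map_one]
    have e2 : ρ v * ρ v⁻¹ = 1 := by rw [← map_mul, mul_inv_cancel, map_one]
    have h3 := norm_comm_le _ _ _ _ e1 e2
    have h4 := norm_inv_le e2 hv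
    have h5 : ‖ρ u⁻¹‖ ≤ 4 / 3 := by
      have e : ρ u⁻¹ = 1 - (ρ u - 1) * ρ u⁻¹ := by rw [sub_mul, e1, one_mul]; abel
      have : ‖ρ u⁻¹‖ ≤ 1 + ‖ρ u - 1‖ * ‖ρ u⁻¹‖ := by
        calc ‖ρ u⁻¹‖ = ‖1 - (ρ u - 1) * ρ u⁻¹‖ := by rw [← e]
          _ ≤ ‖(1 : R)‖ + ‖(ρ u - 1) * ρ u⁻¹‖ := norm_sub_le _ _
          _ ≤ _ := by rw [norm_one]; gcongr; exact norm_mul_le _ _
      nlinarith [norm_nonneg (ρ u⁻¹)]
    rw [map_mul, map_mul, map_mul] at h2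
    have h6 : 2 * ‖ρ u - 1‖ * ‖ρ v - 1‖ * ‖ρ u⁻¹‖ * ‖ρ v⁻¹‖ ≤
        2 * ‖ρ u - 1‖ * (1 / 8) * (4 / 3) * (8 / 7) := by gcongr
    linarith
  exact hF _ _ _ hu (key g hg) (key g' hg')

omit [NormOneClass R] in
theorem Gap.conj {ρ : Γ →* R} {π : Γ →* F} (h : Gap ρ π) {P Q : R} (hPQ : P * Q = 1)
    (hQP : Q * P = 1) : ∃ ρ' : Γ →* R, (∀ g, ρ' g = P * ρ g * Q) ∧ Gap ρ' π := by
  refine ⟨⟨⟨fun g => P * ρ g * Q, by simp [hPQ]⟩, fun x y => ?_⟩, fun _ => rfl, ?_⟩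
  · simp only [map_mul]
    calc P * (ρ x * ρ y) * Q = P * ρ x * (Q * P) * ρ y * Q := by rw [hQP]; noncomm_ring
      _ = _ := by noncomm_ring
  obtain ⟨ε, hε, hd⟩ := h
  set M := ‖Q‖ * ‖P‖ + 1
  have hM : 0 < M := by positivity
  refine ⟨ε / M, by positivity, fun g hg => hd g ?_⟩
  change ‖P * ρ g * Q - 1‖ < ε / M at hg
  have e : ρ g - 1 = Q * (P * ρ g * Q - 1) * P := by
    calc ρ g - 1 = (Q * P) * ρ g * (Q * P) - Q * P := by rw [hQP]; noncomm_ring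
      _ = _ := by noncomm_ring
  rw [lt_div_iff₀ hM] at hg
  rw [e]
  calc _ ≤ ‖Q‖ * ‖P * ρ g * Q - 1‖ * ‖P‖ :=
        (norm_mul_le _ _).trans (by gcongr; exact norm_mul_le _ _)
    _ ≤ ‖P * ρ g * Q - 1‖ * M := by
        have := norm_nonneg (P * ρ g * Q - 1)
        simp only [M]; nlinarith
    _ < ε := hg

variable {A : Type} [Group A] [IsFreeGroup A]

/-- bounded elements whose additive commutator is small have commuting images -/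
theorem comm_of_bracket' {ρ : Γ →* R} {π : Γ →* A} (h : Gap ρ π) {x y : Γ} {K : ℝ} (hK : 1 ≤ K)
    (h1 : ‖ρ x‖ ≤ K) (h2 : ‖ρ x⁻¹‖ ≤ K) (h3 : ‖ρ y‖ ≤ K) (h4 : ‖ρ y⁻¹‖ ≤ K)
    (hb : ‖ρ x * ρ y - ρ y * ρ x‖ * K ^ 4 ≤ 1 / 8) : Commute (π x) (π y) := by
  have e : ρ (x * y * x⁻¹ * y⁻¹) - 1 = (ρ x * ρ y - ρ y * ρ x) * ρ x⁻¹ * ρ y⁻¹ := by
    simp only [sub_mul, ← map_mul]
    congr 1
    rw [← map_one ρ]; congr 1; group
  set b := ‖ρ x * ρ y - ρ y * ρ x‖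
  have b0 : 0 ≤ b := norm_nonneg _
  have hu : ‖ρ (x * y * x⁻¹ * y⁻¹) - 1‖ ≤ b * K * K := by
    rw [e]
    exact (norm_mul_le _ _).trans (by gcongr; exact (norm_mul_le _ _).trans (by gcongr))
  have k : ∀ z : Γ, ‖ρ z‖ ≤ K → ‖ρ z⁻¹‖ ≤ K →
      ‖ρ (z * (x * y * x⁻¹ * y⁻¹) * z⁻¹) - 1‖ ≤ 1 / 8 := fun z a c =>
    (norm_conj_sub_one ρ z _).trans (by
      calc _ ≤ K * (b * K * K) * K := by gcongr
        _ = b * K ^ 4 := by ring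
        _ ≤ _ := hb)
  have hu' : ‖ρ (x * y * x⁻¹ * y⁻¹) - 1‖ ≤ 1 / 8 := hu.trans (by
    calc b * K * K = b * K ^ 2 := by ring
      _ ≤ b * K ^ 4 := by gcongr; norm_num
      _ ≤ _ := hb)
  by_cases h0 : π (x * y * x⁻¹ * y⁻¹) = 1
  · rw [map_mul, map_mul, map_mul, map_inv, map_inv, mul_inv_eq_one,
      mul_inv_eq_iff_eq_mul] at h0
    exact h0
  have a1 := zassenhaus' (ct_free A) h hu' (k x h1 h2)
  have a2 := zassenhaus' (ct_free A) h hu' (k y h3 h4)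
  rw [map_mul π (x * _), map_mul π x, map_inv] at a1
  rw [map_mul π (y * _), map_mul π y, map_inv] at a2
  exact ct h0 (maln a1) (maln a2)

end Pool.Agent.Lib.THU28
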